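import Mathlib

set_option autoImplicit false
set_option linter.unusedSectionVars false

namespace Pool.Agent.Results.MP_e5af61_lc.SuperPoly

open scoped BigOperators

/-! ## Definitions used in the statement -/

/-- `F` (a finite set of monomials, a monomial being a finite set of literals `(i, b)`,
where `(i, b)` stands for the condition `x i = b`) is a DNF of `f`. -/
def IsDNF {n : ℕ} (F : Finset (Finset (Fin n × Bool))) (f : (Fin n → Bool) → Bool) : Prop :=
  ∀ x, f x = true ↔ ∃ m ∈ F, ∀ l ∈ m, x l.1 = l.2

/-- least number of monomials in a DNF of `f` -/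
noncomputable def dnf {n : ℕ} (f : (Fin n → Bool) → Bool) : ℕ :=
  sInf {s | ∃ F : Finset (Finset (Fin n × Bool)), IsDNF F f ∧ F.card = s}

/-- the weight of `f`: DNF size of `f` plus DNF size of its negation -/
noncomputable def weight {n : ℕ} (f : (Fin n → Bool) → Bool) : ℕ :=
  dnf f + dnf (fun x => !(f x))

/-- A branching program on `n` variables: a finite type `V` of non-sink nodes, the two sinks
being `Sum.inr false` and `Sum.inr true`; every non-sink node is labelled by a variable and
has a `0`-successor and a `1`-successor; the graph is acyclic. -/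
structure BP (n : ℕ) where
  V : Type
  fin : Fintype V
  var : V → Fin n
  succ : V → Bool → V ⊕ Bool
  source : V ⊕ Bool
  acyclic : WellFounded (fun w v : V => ∃ b, succ v b = Sum.inl w)

/-- number of nodes (non-sink nodes and the two sinks) -/
noncomputable def BP.size {n : ℕ} (B : BP n) : ℕ := @Fintype.card B.V B.fin + 2

/-- `B.IsPath u l`: `l` is the list of non-sink nodes on some path from `u` to a sink -/
inductive BP.IsPath {n : ℕ} (B : BP n) : B.V ⊕ Bool → List B.V → Prop
  | sink (c : Bool) : BP.IsPath B (Sum.inr c) []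
  | cons (v : B.V) (b : Bool) (l : List B.V) (h : BP.IsPath B (B.succ v b) l) :
      BP.IsPath B (Sum.inl v) (v :: l)

/-- read-once: on every source-to-sink path each variable labels at most one node -/
def BP.ReadOnce {n : ℕ} (B : BP n) : Prop :=
  ∀ l, B.IsPath B.source l → (l.map B.var).Nodup

/-- `B.Run x u c`: following input `x` from node `u` one reaches the sink `c` -/
inductive BP.Run {n : ℕ} (B : BP n) (x : Fin n → Bool) : B.V ⊕ Bool → Bool → Prop
  | sink (c : Bool) : BP.Run B x (Sum.inr c) c
  | step (v : B.V) (c : Bool) (h : BP.Run B x (B.succ v (x (B.var v))) c) :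
      BP.Run B x (Sum.inl v) c

/-- `B` computes `f` -/
def BP.Computes {n : ℕ} (B : BP n) (f : (Fin n → Bool) → Bool) : Prop :=
  ∀ x, B.Run x B.source (f x)

/-- least size of a read-once branching program computing `f` -/
noncomputable def BP1 {n : ℕ} (f : (Fin n → Bool) → Bool) : ℕ :=
  sInf {s | ∃ B : BP n, B.ReadOnce ∧ B.Computes f ∧ B.size = s}

/-! ## Every function has a read-once branching program -/

lemma isPath_sink {n : ℕ} (B : BP n) (c : Bool) (l : List B.V)
    (h : B.IsPath (Sum.inr c) l) : l = [] := by
  cases h; rfl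

section Exists
variable {n : ℕ} (f : (Fin n → Bool) → Bool)

/-- next node of the complete decision tree -/
def nxt (v : Fin n × (Fin n → Bool)) (b : Bool) : (Fin n × (Fin n → Bool)) ⊕ Bool :=
  if h : (v.1 : ℕ) + 1 < n then Sum.inl (⟨v.1 + 1, h⟩, Function.update v.2 v.1 b)
  else Sum.inr (f (Function.update v.2 v.1 b))

/-- source of the complete decision tree -/
def src : (Fin n × (Fin n → Bool)) ⊕ Bool :=
  if h : 0 < n then Sum.inl (⟨0, h⟩, fun _ => false) else Sum.inr (f (fun _ => false))

/-- the complete decision tree -/
noncomputable def fullTree : BP n where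
  V := Fin n × (Fin n → Bool)
  fin := inferInstance
  var := fun v => v.1
  succ := nxt f
  source := src f
  acyclic := by
    have hwf : WellFounded (fun w v : Fin n × (Fin n → Bool) => n - (w.1 : ℕ) < n - (v.1 : ℕ)) :=
      (measure (fun v : Fin n × (Fin n → Bool) => n - (v.1 : ℕ))).wf
    refine Subrelation.wf ?_ hwf
    rintro w v ⟨b, hb⟩
    unfold nxt at hb
    split_ifs at hb with h
    have : w.1 = ⟨v.1 + 1, h⟩ := by
      have := Sum.inl.inj hb
      rw [← this]
    rw [this]
    have := v.1.2
    simp only
    omega

lemma nxt_pos (v : Fin n × (Fin n → Bool)) (b : Bool) (hlt : (v.1 : ℕ) + 1 < n) :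
    nxt f v b = Sum.inl (⟨v.1 + 1, hlt⟩, Function.update v.2 v.1 b) := by
  unfold nxt; rw [dif_pos hlt]

lemma nxt_neg (v : Fin n × (Fin n → Bool)) (b : Bool) (hlt : ¬ (v.1 : ℕ) + 1 < n) :
    nxt f v b = Sum.inr (f (Function.update v.2 v.1 b)) := by
  unfold nxt; rw [dif_neg hlt]

lemma src_pos (h : 0 < n) : src f = Sum.inl (⟨0, h⟩, fun _ => false) := by
  unfold src; rw [dif_pos h]

lemma src_neg (h : ¬ 0 < n) : src f = Sum.inr (f (fun _ => false)) := by
  unfold src; rw [dif_neg h]

lemma fullTree_path (u : (fullTree f).V ⊕ Bool) (l : List (fullTree f).V)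
    (h : (fullTree f).IsPath u l) :
    (l.map (fullTree f).var).Pairwise (· < ·) ∧
      (∀ v, u = Sum.inl v → ∀ w ∈ l, (fullTree f).var v ≤ (fullTree f).var w) := by
  induction h with
  | sink c => simp
  | cons v b l h ih =>
    obtain ⟨ih1, ih2⟩ := ih
    have key : ∀ w ∈ l, (fullTree f).var v < (fullTree f).var w := by
      intro w hw
      by_cases hlt : ((fullTree f).var v : ℕ) + 1 < n
      · have hs := nxt_pos f v b hlt
        have := ih2 _ hs w hw
        have h2 : ((fullTree f).var v : ℕ) + 1 ≤ (fullTree f).var w := this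
        exact Fin.lt_def.mpr (by omega)
      · have hs : (fullTree f).succ v b = _ := nxt_neg f v b hlt
        rw [hs] at h
        have hl := isPath_sink _ _ _ h
        rw [hl] at hw
        simp at hw
    refine ⟨?_, ?_⟩
    · simp only [List.map_cons, List.pairwise_cons]
      refine ⟨?_, ih1⟩
      intro a ha
      rw [List.mem_map] at ha
      obtain ⟨w, hw, rfl⟩ := ha
      exact key w hw
    · intro v' hv' w hw
      have hvv : v = v' := Sum.inl.inj hv'
      rw [← hvv]
      rcases List.mem_cons.mp hw with h | h
      · rw [h]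
      · exact le_of_lt (key w h)

lemma fullTree_readOnce : (fullTree f).ReadOnce := by
  intro l hl
  have := (fullTree_path f _ l hl).1
  exact this.imp (fun h => ne_of_lt h)

lemma fullTree_run (x : Fin n → Bool) (d : ℕ) : ∀ (v : Fin n) (a : Fin n → Bool),
    n - (v : ℕ) = d → (∀ i < v, a i = x i) → (fullTree f).Run x (Sum.inl (v, a)) (f x) := by
  induction d with
  | zero => intro v a h; have := v.2; omega
  | succ d ih =>
    intro v a hd ha
    apply BP.Run.step
    show (fullTree f).Run x (nxt f (v, a) (x v)) (f x)
    unfold nxt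
    by_cases hlt : (v : ℕ) + 1 < n
    · simp only [hlt, dif_pos]
      apply ih
      · simp only; omega
      · intro i hi
        have hi' : (i : ℕ) < v + 1 := hi
        rcases Nat.lt_succ_iff_lt_or_eq.mp hi' with h | h
        · have hne : i ≠ v := fun h' => by rw [h'] at h; exact lt_irrefl _ h
          rw [Function.update_of_ne hne]
          exact ha i h
        · have : i = v := Fin.ext h
          rw [this, Function.update_self]
    · simp only [hlt, dif_neg, not_false_eq_true]
      have : Function.update a v (x v) = x := by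
        funext i
        by_cases h : i = v
        · rw [h, Function.update_self]
        · rw [Function.update_of_ne h]
          apply ha
          have h1 := i.2
          have h2 := v.2
          have h3 : (i : ℕ) ≠ v := fun h' => h (Fin.ext h')
          exact Fin.lt_def.mpr (by omega)
      rw [this]
      exact BP.Run.sink _

lemma fullTree_computes : (fullTree f).Computes f := by
  intro x
  by_cases h : 0 < n
  · have hs : (fullTree f).source = Sum.inl (⟨0, h⟩, fun _ => false) := src_pos f h
    rw [hs]
    apply fullTree_run f x (n - 0) _ _ rfl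
    intro i hi
    exact absurd hi (by simp [Fin.lt_def])
  · have hs : (fullTree f).source = Sum.inr (f (fun _ => false)) := src_neg f h
    rw [hs]
    have : x = fun _ => false := by
      funext i; exact absurd (lt_of_le_of_lt (Nat.zero_le _) i.2) h
    rw [this]
    exact BP.Run.sink _

lemma BP1_nonempty : {s | ∃ B : BP n, B.ReadOnce ∧ B.Computes f ∧ B.size = s}.Nonempty :=
  ⟨_, fullTree f, fullTree_readOnce f, fullTree_computes f, rfl⟩

end Exists

/-! ## General facts on read-once programs -/

section Reach
variable {n : ℕ} (B : BP n)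

/-- `Reach B u α`: some path from the source to `u` reads exactly the partial assignment `α` -/
inductive Reach : B.V ⊕ Bool → (Fin n → Option Bool) → Prop
  | start : Reach B.source (fun _ => none)
  | step (v : B.V) (b : Bool) (α : Fin n → Option Bool) (h : Reach (Sum.inl v) α) :
      Reach (B.succ v b) (Function.update α (B.var v) (some b))

lemma exists_path (u : B.V ⊕ Bool) : ∃ l, B.IsPath u l := by
  have key : ∀ v : B.V, ∃ l, B.IsPath (Sum.inl v) l := by
    intro v
    induction v using B.acyclic.induction with
    | _ v ih =>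
      cases hs : B.succ v true with
      | inl w =>
        obtain ⟨l, hl⟩ := ih w ⟨true, hs⟩
        exact ⟨v :: l, BP.IsPath.cons v true l (by rw [hs]; exact hl)⟩
      | inr c =>
        exact ⟨[v], BP.IsPath.cons v true [] (by rw [hs]; exact BP.IsPath.sink c)⟩
  cases u with
  | inl v => exact key v
  | inr c => exact ⟨[], BP.IsPath.sink c⟩

lemma exists_run (x : Fin n → Bool) (u : B.V ⊕ Bool) : ∃ c, B.Run x u c := by
  have key : ∀ v : B.V, ∃ c, B.Run x (Sum.inl v) c := by
    intro v
    induction v using B.acyclic.induction with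
    | _ v ih =>
      cases hs : B.succ v (x (B.var v)) with
      | inl w =>
        obtain ⟨c, hc⟩ := ih w ⟨_, hs⟩
        exact ⟨c, BP.Run.step v c (by rw [hs]; exact hc)⟩
      | inr c =>
        exact ⟨c, BP.Run.step v c (by rw [hs]; exact BP.Run.sink c)⟩
  cases u with
  | inl v => exact key v
  | inr c => exact ⟨c, BP.Run.sink c⟩

lemma run_unique (x : Fin n → Bool) (u : B.V ⊕ Bool) (c : Bool) (h : B.Run x u c) :
    ∀ c', B.Run x u c' → c = c' := by
  induction h with
  | sink c => intro c' h'; cases h'; rfl
  | step v c h ih => intro c' h'; cases h' with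
    | step _ _ h'' => exact ih c' h''

lemma reach_path (u : B.V ⊕ Bool) (α : Fin n → Option Bool) (h : Reach B u α) :
    ∃ pre : List B.V, (∀ l, B.IsPath u l → B.IsPath B.source (pre ++ l)) ∧
      ∀ i, α i ≠ none → i ∈ pre.map B.var := by
  induction h with
  | start => exact ⟨[], by simp, by simp⟩
  | step v b α h ih =>
    obtain ⟨pre, h1, h2⟩ := ih
    refine ⟨pre ++ [v], ?_, ?_⟩
    · intro l hl
      rw [List.append_assoc]
      apply h1
      exact BP.IsPath.cons v b l hl
    · intro i hi
      rw [List.map_append, List.mem_append]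
      by_cases hiv : i = B.var v
      · right; simp [hiv]
      · left
        rw [Function.update_of_ne hiv] at hi
        exact h2 i hi

lemma reach_fresh (hB : B.ReadOnce) (v : B.V) (α : Fin n → Option Bool)
    (h : Reach B (Sum.inl v) α) : α (B.var v) = none := by
  by_contra hne
  obtain ⟨pre, h1, h2⟩ := reach_path B _ α h
  obtain ⟨l, hl⟩ := exists_path B (Sum.inl v)
  have hnd := hB _ (h1 l hl)
  have hmem := h2 _ hne
  cases hl with
  | cons _ b l' hl' =>
    rw [List.map_append, List.map_cons, List.nodup_append] at hnd
    exact hnd.2.2 _ hmem _ (List.mem_cons_self) rfl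

/-- `x` extends `α` -/
def Ext (α : Fin n → Option Bool) (x : Fin n → Bool) : Prop := ∀ i b, α i = some b → x i = b

lemma reach_run (hB : B.ReadOnce) (u : B.V ⊕ Bool) (α : Fin n → Option Bool)
    (h : Reach B u α) (x : Fin n → Bool) (c : Bool) (hx : Ext α x) (hr : B.Run x u c) :
    B.Run x B.source c := by
  induction h with
  | start => exact hr
  | step v b α h ih =>
    have hf := reach_fresh B hB v α h
    have hxv : x (B.var v) = b := hx _ _ (by rw [Function.update_self])
    apply ih
    · intro i b' hi
      apply hx
      have hiv : i ≠ B.var v := fun h' => by rw [h', hf] at hi; exact absurd hi (by simp)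
      rw [Function.update_of_ne hiv]
      exact hi
    · apply BP.Run.step
      rw [hxv]
      exact hr

lemma run_agree (hB : B.ReadOnce) (x x' : Fin n → Bool) (u : B.V ⊕ Bool) (c : Bool)
    (hr : B.Run x u c) : ∀ (α : Fin n → Option Bool), Reach B u α →
    (∀ i, α i = none → x i = x' i) → B.Run x' u c := by
  induction hr with
  | sink c => intro _ _ _; exact BP.Run.sink c
  | step v c h ih =>
    intro α hα hag
    have hf := reach_fresh B hB v α hα
    have hv := hag _ hf
    apply BP.Run.step
    rw [← hv]
    apply ih _ (Reach.step v (x (B.var v)) α hα)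
    intro i hi
    apply hag
    by_cases hiv : i = B.var v
    · rw [hiv]; exact hf
    · rw [Function.update_of_ne hiv] at hi
      exact hi

/-- Two paths ending in the same node: extensions agreeing outside the read variables have
the same value. -/
lemma same_node (hB : B.ReadOnce) (f : (Fin n → Bool) → Bool) (hf : B.Computes f)
    (u : B.V ⊕ Bool) (α β : Fin n → Option Bool) (hα : Reach B u α) (hβ : Reach B u β)
    (x y : Fin n → Bool) (hx : Ext α x) (hy : Ext β y)
    (hag : ∀ i, α i = none → β i = none → x i = y i) : f x = f y := by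
  obtain ⟨c, hc⟩ := exists_run B x u
  have h1 : f x = c := run_unique B x B.source _ (hf x) _ (reach_run B hB u α hα x c hx hc)
  set w : Fin n → Bool := fun i => if β i = none then x i else y i with hw
  have h2 : B.Run w u c := run_agree B hB x w u c hc β hβ (by
    intro i hi; simp [hw, hi])
  have h3 : B.Run y u c := run_agree B hB w y u c h2 α hα (by
    intro i hi
    simp only [hw]
    split_ifs with h
    · exact hag i hi h
    · rfl)
  have h4 : f y = c := run_unique B y B.source _ (hf y) _ (reach_run B hB u β hβ y c hy h3)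
  rw [h1, h4]

end Reach

/-! ## Gadgets -/

section Gadget

/-- majority of three bits -/
def maj (a b c : Bool) : Bool := (a && b) || (a && c) || (b && c)

/-- adversary-consistency of a partially read gadget -/
def gok (w : Fin 3 → Option Bool) : Prop :=
  (∃ t t', t ≠ t' ∧ w t ≠ none ∧ w t' ≠ none) → (∃ t, w t = some true) ∧ (∃ t, w t = some false)

instance (w : Fin 3 → Option Bool) : Decidable (gok w) := by unfold gok; infer_instance

/-- value of a completely read gadget -/
def st (w : Fin 3 → Option Bool) : Option Bool :=
  if ∀ t, w t ≠ none then some (maj ((w 0).getD false) ((w 1).getD false) ((w 2).getD false))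
  else none

lemma gadget_fill : ∀ (w : Fin 3 → Option Bool), gok w → ∀ p : Bool, st w = none →
    maj ((w 0).getD p) ((w 1).getD p) ((w 2).getD p) = p := by
  decide

lemma gadget_full : ∀ (w : Fin 3 → Option Bool), ∀ p m : Bool, st w = some m →
    maj ((w 0).getD p) ((w 1).getD p) ((w 2).getD p) = m := by
  decide

lemma gadget_step : ∀ (w : Fin 3 → Option Bool), gok w → ∀ t, w t = none →
    ((∀ t, w t = none) ∧ ∀ b, gok (Function.update w t (some b)) ∧
      st (Function.update w t (some b)) = none) ∨
    (¬ (∀ t, w t = none) ∧ ((∃ b, gok (Function.update w t (some b)) ∧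
      st (Function.update w t (some b)) = none) ∨
      (∀ b, gok (Function.update w t (some b)) ∧ st (Function.update w t (some b)) = some b))) := by
  decide

lemma gadget_st_none : ∀ (w : Fin 3 → Option Bool), ∀ t, w t = none → st w = none := by
  decide

lemma gadget_untouched : ∀ (w : Fin 3 → Option Bool), (∀ t, w t = none) → st w = none := by
  decide

end Gadget

/-! ## Status matrices -/

section Status
variable {Bk : Type} [Fintype Bk] [DecidableEq Bk] {k : ℕ}

/-- adversary-consistency of a status matrix -/
def SC (S : Bk × (Fin k × Fin k) → Option Bool) : Prop :=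
  (∀ l i, (∃ j, S (l, (i, j)) = none) → ∀ j, S (l, (i, j)) ≠ some false) ∧
  (∀ l, (∃ q, S (l, q) = none) → ∀ i, (∀ j, S (l, (i, j)) ≠ none) → ∃ j, S (l, (i, j)) = some false)

lemma SC_step (S : Bk × (Fin k × Fin k) → Option Bool) (h : SC S)
    (g : Bk × (Fin k × Fin k)) (hg : S g = none) :
    ∃ b, SC (Function.update S g (some b)) := by
  obtain ⟨l0, i0, j0⟩ := g
  obtain ⟨h1, h2⟩ := h
  by_cases hrow : ∃ j, j ≠ j0 ∧ S (l0, (i0, j)) = none
  · -- another unread gadget in the row: answer `true`
    refine ⟨true, ?_, ?_⟩
    · rintro l i ⟨j, hj⟩ j' hj'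
      by_cases hli : (l, i) = (l0, i0)
      · have hl : l = l0 := (Prod.mk.inj hli).1
        have hi : i = i0 := (Prod.mk.inj hli).2
        subst hl; subst hi
        by_cases hjj : j' = j0
        · subst hjj
          rw [Function.update_self] at hj'
          exact absurd hj' (by simp)
        · rw [Function.update_of_ne (by simp [hjj])] at hj'
          exact h1 l i ⟨j0, hg⟩ j' hj'
      · have hne : ∀ j, (l, (i, j)) ≠ (l0, (i0, j0)) := by
          intro j hc
          simp only [Prod.mk.injEq] at hc
          exact hli (by rw [hc.1, hc.2.1])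
        rw [Function.update_of_ne (hne _)] at hj hj'
        exact h1 l i ⟨j, hj⟩ j' hj'
    · intro l hq i hfull
      by_cases hli : (l, i) = (l0, i0)
      · exfalso
        have hl : l = l0 := (Prod.mk.inj hli).1
        have hi : i = i0 := (Prod.mk.inj hli).2
        subst hl; subst hi
        obtain ⟨j, hjne, hj⟩ := hrow
        have := hfull j
        rw [Function.update_of_ne (by simp [hjne])] at this
        exact this hj
      · have hne : ∀ j, (l, (i, j)) ≠ (l0, (i0, j0)) := by
          intro j hc
          simp only [Prod.mk.injEq] at hc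
          exact hli (by rw [hc.1, hc.2.1])
        have hfull' : ∀ j, S (l, (i, j)) ≠ none := by
          intro j
          have := hfull j
          rwa [Function.update_of_ne (hne _)] at this
        have hq' : ∃ q, S (l, q) = none := by
          obtain ⟨q, hq⟩ := hq
          by_cases hlq : (l, q) = (l0, (i0, j0))
          · rw [hlq, Function.update_self] at hq
            exact absurd hq (by simp)
          · rw [Function.update_of_ne hlq] at hq
            exact ⟨q, hq⟩
        obtain ⟨j, hj⟩ := h2 l hq' i hfull'
        exact ⟨j, by rw [Function.update_of_ne (hne _)]; exact hj⟩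
  · -- the row becomes complete: answer `false`
    refine ⟨false, ?_, ?_⟩
    · rintro l i ⟨j, hj⟩ j' hj'
      by_cases hli : (l, i) = (l0, i0)
      · exfalso
        have hl : l = l0 := (Prod.mk.inj hli).1
        have hi : i = i0 := (Prod.mk.inj hli).2
        subst hl; subst hi
        by_cases hjj : j = j0
        · subst hjj
          rw [Function.update_self] at hj
          exact absurd hj (by simp)
        · rw [Function.update_of_ne (by simp [hjj])] at hj
          exact hrow ⟨j, hjj, hj⟩
      · have hne : ∀ j, (l, (i, j)) ≠ (l0, (i0, j0)) := by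
          intro j hc
          simp only [Prod.mk.injEq] at hc
          exact hli (by rw [hc.1, hc.2.1])
        rw [Function.update_of_ne (hne _)] at hj hj'
        exact h1 l i ⟨j, hj⟩ j' hj'
    · intro l hq i hfull
      by_cases hli : (l, i) = (l0, i0)
      · have hl : l = l0 := (Prod.mk.inj hli).1
        have hi : i = i0 := (Prod.mk.inj hli).2
        subst hl; subst hi
        exact ⟨j0, by rw [Function.update_self]⟩
      · have hne : ∀ j, (l, (i, j)) ≠ (l0, (i0, j0)) := by
          intro j hc
          simp only [Prod.mk.injEq] at hc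
          exact hli (by rw [hc.1, hc.2.1])
        have hfull' : ∀ j, S (l, (i, j)) ≠ none := by
          intro j
          have := hfull j
          rwa [Function.update_of_ne (hne _)] at this
        have hq' : ∃ q, S (l, q) = none := by
          obtain ⟨q, hq⟩ := hq
          by_cases hlq : (l, q) = (l0, (i0, j0))
          · rw [hlq, Function.update_self] at hq
            exact absurd hq (by simp)
          · rw [Function.update_of_ne hlq] at hq
            exact ⟨q, hq⟩
        obtain ⟨j, hj⟩ := h2 l hq' i hfull'
        exact ⟨j, by rw [Function.update_of_ne (hne _)]; exact hj⟩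

end Status

/-! ## The function -/

section Fn
variable {n k : ℕ} {Bk : Type} [Fintype Bk] [DecidableEq Bk]
  (E : Fin n ≃ (Bk × (Fin k × Fin k)) × Fin 3) (v : (Bk → Bool) → Fin n ⊕ Bool)

/-- value of the block `l` -/
def bval (x : Fin n → Bool) (l : Bk) : Bool :=
  decide (∃ i : Fin k, ∀ j : Fin k, maj (x (E.symm ((l, (i, j)), 0)))
    (x (E.symm ((l, (i, j)), 1))) (x (E.symm ((l, (i, j)), 2))) = true)

def lit (x : Fin n → Bool) : Fin n ⊕ Bool → Bool
  | Sum.inl s => x s
  | Sum.inr c => c

/-- the function -/
def ff (x : Fin n → Bool) : Bool := lit x (v (bval E x))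

/-- fill the unset positions of `α` in block `l` with `p l` -/
def fill (α : Fin n → Option Bool) (p : Bk → Bool) (i : Fin n) : Bool :=
  (α i).getD (p (E i).1.1)

lemma ext_fill (α : Fin n → Option Bool) (p : Bk → Bool) : Ext α (fill E α p) := by
  intro i b h
  simp [fill, h]

lemma bval_congr (x y : Fin n → Bool) (l : Bk) (h : ∀ i, (E i).1.1 = l → x i = y i) :
    bval E x l = bval E y l := by
  unfold bval
  congr 1
  simp only [eq_iff_iff]
  apply exists_congr; intro i
  apply forall_congr'; intro j
  rw [h (E.symm ((l, (i, j)), 0)) (by simp), h (E.symm ((l, (i, j)), 1)) (by simp),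
    h (E.symm ((l, (i, j)), 2)) (by simp)]

/-- no block is determined -/
def Gd (α : Fin n → Option Bool) : Prop :=
  ∀ l, bval E (fill E α (fun _ => true)) l = true ∧ bval E (fill E α (fun _ => false)) l = false

lemma bval_fill (α : Fin n → Option Bool) (hα : Gd E α) (p : Bk → Bool) (l : Bk) :
    bval E (fill E α p) l = p l := by
  have h := hα l
  cases hp : p l with
  | true =>
    rw [← h.1]
    apply bval_congr
    intro i hi
    simp [fill, hi, hp]
  | false =>
    rw [← h.2]
    apply bval_congr
    intro i hi
    simp [fill, hi, hp]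

/-- requirements on the addressing map -/
structure VOk : Prop where
  surj : ∀ s, ∃ p, v p = Sum.inl s
  zero : v (fun _ => false) = Sum.inr false
  one : ∀ l, v (Function.update (fun _ => false) l true) = Sum.inr true

lemma ff_fill (α : Fin n → Option Bool) (hα : Gd E α) (p : Bk → Bool) :
    ff E v (fill E α p) = lit (fill E α p) (v p) := by
  unfold ff
  have : bval E (fill E α p) = p := funext (bval_fill E α hα p)
  rw [this]

/-- a good partial assignment leaves a function depending on every unset variable -/
lemma dep (hv : VOk v) (β : Fin n → Option Bool) (hβ : Gd E β) (s : Fin n) (hs : β s = none) :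
    ∃ y y' : Fin n → Bool, Ext β y ∧ Ext β y' ∧ (∀ i, i ≠ s → y i = y' i) ∧
      ff E v y ≠ ff E v y' := by
  obtain ⟨p, hp⟩ := hv.surj s
  -- general construction: fill with `p'`, then set `s` to `b`
  have hext : ∀ (p' : Bk → Bool) (b : Bool), Ext β (Function.update (fill E β p') s b) := by
    intro p' b i b' hi
    have hne : i ≠ s := fun h => by rw [h, hs] at hi; exact absurd hi (by simp)
    rw [Function.update_of_ne hne]
    exact ext_fill E β p' i b' hi
  have hagree : ∀ (p' : Bk → Bool) (b b' : Bool) (i : Fin n), i ≠ s →
      Function.update (fill E β p') s b i = Function.update (fill E β p') s b' i := by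
    intro p' b b' i hi
    rw [Function.update_of_ne hi, Function.update_of_ne hi]
  have hother : ∀ (p' : Bk → Bool) (b : Bool) (l : Bk), l ≠ (E s).1.1 →
      bval E (Function.update (fill E β p') s b) l = p' l := by
    intro p' b l hl
    rw [← bval_fill E β hβ p' l]
    apply bval_congr
    intro i hi
    rw [Function.update_of_ne]
    intro h; rw [h] at hi; exact hl hi.symm
  -- setting `s` to the filling value changes nothing
  have hself : ∀ (p' : Bk → Bool) (b : Bool), p' (E s).1.1 = b →
      Function.update (fill E β p') s b = fill E β p' := by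
    intro p' b hb
    have : fill E β p' s = b := by simp [fill, hs, hb]
    rw [← this, Function.update_eq_self]
  by_cases hcase : bval E (Function.update (fill E β p) s (!(p (E s).1.1))) (E s).1.1
      = p (E s).1.1
  · -- the block value does not feel `s`
    refine ⟨Function.update (fill E β p) s (p (E s).1.1),
      Function.update (fill E β p) s (!(p (E s).1.1)), hext _ _, hext _ _, hagree p _ _, ?_⟩
    rw [hself p _ rfl, ff_fill E v β hβ, hp]
    have h2 : bval E (Function.update (fill E β p) s (!(p (E s).1.1))) = p := by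
      funext l
      by_cases hl : l = (E s).1.1
      · rw [hl]; exact hcase
      · exact hother p _ l hl
    unfold ff
    rw [h2, hp]
    simp only [lit, Function.update_self]
    have : fill E β p s = p (E s).1.1 := by simp [fill, hs]
    rw [this]
    cases p (E s).1.1 <;> simp
  · -- the block value equals `x s` : use the constants
    have hcase' : bval E (Function.update (fill E β p) s (!(p (E s).1.1))) (E s).1.1
        = !(p (E s).1.1) := by
      cases h1 : p (E s).1.1 <;>
      cases h2 : bval E (Function.update (fill E β p) s (!(p (E s).1.1))) (E s).1.1 <;>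
      simp_all
    set p' : Bk → Bool := Function.update (fun _ => false) (E s).1.1 (p (E s).1.1) with hp'
    have hp's : p' (E s).1.1 = p (E s).1.1 := by rw [hp', Function.update_self]
    -- with value b, the block vector is `update 0 _ b`
    have hvec : ∀ b : Bool, bval E (Function.update (fill E β p') s b)
        = Function.update (fun _ => false) (E s).1.1 b := by
      intro b
      funext l
      by_cases hl : l = (E s).1.1
      · rw [hl, Function.update_self]
        have hc : bval E (Function.update (fill E β p') s b) (E s).1.1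
            = bval E (Function.update (fill E β p) s b) (E s).1.1 := by
          apply bval_congr
          intro i hi
          by_cases his : i = s
          · rw [his, Function.update_self, Function.update_self]
          · rw [Function.update_of_ne his, Function.update_of_ne his]
            simp [fill, hi, hp's]
        rw [hc]
        by_cases hb : b = p (E s).1.1
        · rw [hb, hself p _ rfl, bval_fill E β hβ]
        · have hb' : b = !(p (E s).1.1) := by
            cases b <;> cases h1 : p (E s).1.1 <;> simp_all
          rw [hb', hcase']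
      · rw [Function.update_of_ne hl, hother p' b l hl, hp', Function.update_of_ne hl]
    refine ⟨Function.update (fill E β p') s true,
      Function.update (fill E β p') s false, hext _ _, hext _ _, hagree p' _ _, ?_⟩
    unfold ff
    rw [hvec, hvec, hv.one]
    have : (Function.update (fun _ => false) (E s).1.1 false : Bk → Bool) = fun _ => false :=
      Function.update_eq_self _ _
    rw [this, hv.zero]
    simp [lit]

variable (B : BP n)

lemma good_unique (hB : B.ReadOnce) (hv : VOk v) (hf : B.Computes (ff E v)) (u : B.V ⊕ Bool)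
    (α β : Fin n → Option Bool) (hα : Reach B u α) (hβ : Reach B u β) (gα : Gd E α)
    (gβ : Gd E β) : α = β := by
  -- one-sided statement
  have key : ∀ (α β : Fin n → Option Bool), Reach B u α → Reach B u β → Gd E α → Gd E β →
      ∀ s b, α s = some b → β s = some b := by
    intro α β hα hβ gα gβ s b hs
    cases hβs : β s with
    | some b' =>
      by_contra hne
      have hbb : b ≠ b' := fun h => hne (by rw [h])
      obtain ⟨p, hp⟩ := hv.surj s
      have h := same_node B hB (ff E v) hf u α β hα hβ (fill E α p) (fill E β p)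
        (ext_fill E α p) (ext_fill E β p) (by
          intro i h1 h2
          simp [fill, h1, h2])
      rw [ff_fill E v α gα, ff_fill E v β gβ, hp] at h
      simp only [lit, fill, hs, hβs, Option.getD_some] at h
      exact hbb h
    | none =>
      exfalso
      obtain ⟨y, y', hy, hy', hag, hne⟩ := dep E v hv β gβ s hβs
      set x : Fin n → Bool := fun i => (α i).getD (y i) with hx
      have hxe : Ext α x := by
        intro i b h
        simp [hx, h]
      have h1 := same_node B hB (ff E v) hf u α β hα hβ x y hxe hy (by
        intro i h1 _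
        simp [hx, h1])
      have h2 := same_node B hB (ff E v) hf u α β hα hβ x y' hxe hy' (by
        intro i h1 _
        have his : i ≠ s := fun h => by rw [h, hs] at h1; exact absurd h1 (by simp)
        simp only [hx, h1, Option.getD_none]
        exact hag i his)
      exact hne (h1.symm.trans h2)
  funext s
  cases hαs : α s with
  | some b => exact (key α β hα hβ gα gβ s b hαs).symm
  | none =>
    cases hβs : β s with
    | none => rfl
    | some b =>
      have := key β α hβ hα gβ gα s b hβs
      rw [this] at hαs
      exact hαs.symm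

lemma good_not_sink [Nonempty Bk] (hB : B.ReadOnce) (hv : VOk v) (hf : B.Computes (ff E v))
    (c : Bool) (α : Fin n → Option Bool) (hα : Reach B (Sum.inr c) α) (gα : Gd E α) : False := by
  have h : ∀ p, ff E v (fill E α p) = c := by
    intro p
    have h1 := reach_run B hB _ α hα (fill E α p) c (ext_fill E α p) (BP.Run.sink c)
    exact run_unique B _ _ _ (hf _) _ h1
  have l : Bk := Classical.arbitrary Bk
  have h0 := h (fun _ => false)
  have h1 := h (Function.update (fun _ => false) l true)
  rw [ff_fill E v α gα, hv.zero] at h0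
  rw [ff_fill E v α gα, hv.one] at h1
  simp only [lit] at h0 h1
  rw [← h0] at h1
  exact absurd h1 (by simp)

/-! ### the potential -/

/-- gadget contents -/
def gw (α : Fin n → Option Bool) (g : Bk × (Fin k × Fin k)) (t : Fin 3) : Option Bool :=
  α (E.symm (g, t))

/-- adversary-consistent partial assignments -/
def Cons (α : Fin n → Option Bool) : Prop :=
  (∀ g, gok (gw E α g)) ∧ SC (fun g => st (gw E α g))

open Classical in
/-- number of untouched gadgets -/
noncomputable def unt (α : Fin n → Option Bool) : ℕ :=
  (Finset.univ.filter (fun g => ∀ t, gw E α g t = none)).card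

open Classical in
noncomputable def Phi (α : Fin n → Option Bool) : ℕ := if Cons E α then 2 ^ unt E α else 0

lemma gw_update (α : Fin n → Option Bool) (s : Fin n) (o : Option Bool)
    (g : Bk × (Fin k × Fin k)) :
    gw E (Function.update α s o) g
      = if g = (E s).1 then Function.update (gw E α g) (E s).2 o else gw E α g := by
  funext t
  by_cases hg : g = (E s).1
  · rw [if_pos hg]
    by_cases ht : t = (E s).2
    · have : E.symm (g, t) = s := by rw [hg, ht]; simp
      simp only [gw]
      rw [this, Function.update_self, ht, Function.update_self]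
    · rw [Function.update_of_ne ht]
      unfold gw
      rw [Function.update_of_ne]
      intro h
      apply ht
      have := congrArg E h
      rw [Equiv.apply_symm_apply] at this
      rw [← this]
  · rw [if_neg hg]
    unfold gw
    rw [Function.update_of_ne]
    intro h
    apply hg
    have := congrArg E h
    rw [Equiv.apply_symm_apply] at this
    rw [← this]

lemma unt_update_touched (α : Fin n → Option Bool) (s : Fin n) (b : Bool)
    (h : ¬ ∀ t, gw E α (E s).1 t = none) :
    unt E (Function.update α s (some b)) = unt E α := by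
  unfold unt
  congr 1
  ext g
  simp only [Finset.mem_filter, Finset.mem_univ, true_and]
  rw [gw_update]
  by_cases hg : g = (E s).1
  · rw [if_pos hg]
    constructor
    · intro h'
      have := h' (E s).2
      rw [Function.update_self] at this
      exact absurd this (by simp)
    · intro h'
      rw [hg] at h'
      exact absurd h' h
  · rw [if_neg hg]

lemma unt_update_untouched (α : Fin n → Option Bool) (s : Fin n) (b : Bool)
    (h : ∀ t, gw E α (E s).1 t = none) :
    unt E (Function.update α s (some b)) + 1 = unt E α := by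
  classical
  unfold unt
  have : (Finset.univ.filter (fun g => ∀ t, gw E α g t = none))
      = insert (E s).1 (Finset.univ.filter
        (fun g => ∀ t, gw E (Function.update α s (some b)) g t = none)) := by
    ext g
    simp only [Finset.mem_filter, Finset.mem_univ, true_and, Finset.mem_insert]
    rw [gw_update]
    by_cases hg : g = (E s).1
    · rw [hg]
      simp only [true_or, iff_true]
      exact h
    · rw [if_neg hg]
      simp [hg]
  rw [this, Finset.card_insert_of_notMem]
  simp only [Finset.mem_filter, Finset.mem_univ, true_and, not_forall]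
  refine ⟨(E s).2, ?_⟩
  rw [gw_update, if_pos rfl, Function.update_self]
  simp

lemma cons_update_none (α : Fin n → Option Bool) (hα : Cons E α) (s : Fin n) (b : Bool)
    (h1 : gok (Function.update (gw E α (E s).1) (E s).2 (some b)))
    (h2 : st (Function.update (gw E α (E s).1) (E s).2 (some b)) = none)
    (h3 : st (gw E α (E s).1) = none) :
    Cons E (Function.update α s (some b)) := by
  constructor
  · intro g
    rw [gw_update]
    by_cases hg : g = (E s).1
    · rw [if_pos hg, hg]; exact h1
    · rw [if_neg hg]; exact hα.1 g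
  · have : (fun g => st (gw E (Function.update α s (some b)) g)) = fun g => st (gw E α g) := by
      funext g
      rw [gw_update]
      by_cases hg : g = (E s).1
      · rw [if_pos hg, hg, h2, h3]
      · rw [if_neg hg]
    rw [this]
    exact hα.2

lemma cons_step (α : Fin n → Option Bool) (hα : Cons E α) (s : Fin n) (hs : α s = none) :
    (∃ b, Cons E (Function.update α s (some b)) ∧
      unt E (Function.update α s (some b)) = unt E α) ∨
    (∀ b, Cons E (Function.update α s (some b)) ∧
      unt E (Function.update α s (some b)) + 1 = unt E α) := by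
  have hw : gw E α (E s).1 (E s).2 = none := by
    simp only [gw]
    have : E.symm ((E s).1, (E s).2) = s := by simp
    rw [this]; exact hs
  have hst := gadget_st_none _ _ hw
  rcases gadget_step (gw E α (E s).1) (hα.1 _) (E s).2 hw with ⟨hu, hb⟩ | ⟨hu, hb | hb⟩
  · right
    intro b
    exact ⟨cons_update_none E α hα s b (hb b).1 (hb b).2 hst, unt_update_untouched E α s b hu⟩
  · left
    obtain ⟨b, hb1, hb2⟩ := hb
    exact ⟨b, cons_update_none E α hα s b hb1 hb2 hst, unt_update_touched E α s b hu⟩
  · left
    obtain ⟨b, hSC⟩ := SC_step (fun g => st (gw E α g)) hα.2 (E s).1 hst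
    refine ⟨b, ⟨?_, ?_⟩, unt_update_touched E α s b hu⟩
    · intro g
      rw [gw_update]
      by_cases hg : g = (E s).1
      · rw [if_pos hg, hg]; exact (hb b).1
      · rw [if_neg hg]; exact hα.1 g
    · have : (fun g => st (gw E (Function.update α s (some b)) g))
          = Function.update (fun g => st (gw E α g)) (E s).1 (some b) := by
        funext g
        rw [gw_update]
        by_cases hg : g = (E s).1
        · rw [if_pos hg, hg, (hb b).2, Function.update_self]
        · rw [if_neg hg, Function.update_of_ne hg]
      rw [this]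
      exact hSC

lemma Phi_step (α : Fin n → Option Bool) (s : Fin n) (hs : α s = none) :
    Phi E α ≤ Phi E (Function.update α s (some false)) + Phi E (Function.update α s (some true)) := by
  classical
  by_cases hα : Cons E α
  · rcases cons_step E α hα s hs with ⟨b, hb, hu⟩ | h
    · have : Phi E (Function.update α s (some b)) = Phi E α := by
        unfold Phi; rw [if_pos hb, if_pos hα, hu]
      cases b
      · omega
      · omega
    · have h0 : 2 * Phi E (Function.update α s (some false)) = Phi E α := by
        unfold Phi; rw [if_pos (h false).1, if_pos hα, ← (h false).2, pow_succ]; ring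
      have h1 : 2 * Phi E (Function.update α s (some true)) = Phi E α := by
        unfold Phi; rw [if_pos (h true).1, if_pos hα, ← (h true).2, pow_succ]; ring
      omega
  · unfold Phi
    rw [if_neg hα]
    exact Nat.zero_le _

/-- In a consistent assignment, a block with an incomplete gadget is undetermined. -/
lemma block_undet (α : Fin n → Option Bool) (hα : Cons E α) (l : Bk) (q : Fin k × Fin k)
    (hq : st (gw E α (l, q)) = none) :
    bval E (fill E α (fun _ => true)) l = true ∧ bval E (fill E α (fun _ => false)) l = false := by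
  obtain ⟨i0, j0⟩ := q
  have hval : ∀ (c : Bool) (i j : Fin k),
      maj (fill E α (fun _ => c) (E.symm ((l, (i, j)), 0)))
        (fill E α (fun _ => c) (E.symm ((l, (i, j)), 1)))
        (fill E α (fun _ => c) (E.symm ((l, (i, j)), 2)))
      = maj ((gw E α (l, (i, j)) 0).getD c) ((gw E α (l, (i, j)) 1).getD c)
        ((gw E α (l, (i, j)) 2).getD c) := by
    intro c i j; rfl
  constructor
  · unfold bval
    rw [decide_eq_true_iff]
    refine ⟨i0, fun j => ?_⟩
    rw [hval]
    cases hj : st (gw E α (l, (i0, j))) with
    | none => exact gadget_fill _ (hα.1 _) true hj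
    | some m =>
      rw [gadget_full _ true m hj]
      cases m with
      | true => rfl
      | false => exact absurd hj (hα.2.1 l i0 ⟨j0, hq⟩ j)
  · unfold bval
    rw [decide_eq_false_iff_not]
    rintro ⟨i, hi⟩
    by_cases hfull : ∀ j, st (gw E α (l, (i, j))) ≠ none
    · obtain ⟨j, hj⟩ := hα.2.2 l ⟨(i0, j0), hq⟩ i hfull
      have := hi j
      rw [hval, gadget_full _ false false hj] at this
      exact absurd this (by simp)
    · push Not at hfull
      obtain ⟨j, hj⟩ := hfull
      have := hi j
      rw [hval, gadget_fill _ (hα.1 _) false hj] at this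
      exact absurd this (by simp)

lemma Phi_bad (α : Fin n → Option Bool) (hbad : ¬ Gd E α) :
    Phi E α ≤ 2 ^ (Fintype.card (Bk × (Fin k × Fin k)) - k*k) := by
  classical
  unfold Phi
  split_ifs with hα
  · apply Nat.pow_le_pow_right (by norm_num)
    unfold Gd at hbad
    rw [not_forall] at hbad
    obtain ⟨l, hl⟩ := hbad
    have hst : ∀ q, st (gw E α (l, q)) ≠ none := fun q hq => hl (block_undet E α hα l q hq)
    unfold unt
    have hsub : (Finset.univ.filter (fun g : Bk × (Fin k × Fin k) => ∀ t, gw E α g t = none))
        ⊆ Finset.univ \ (Finset.univ.map ⟨fun q => (l, q), Prod.mk_right_injective l⟩) := by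
      intro g hg
      rw [Finset.mem_filter] at hg
      rw [Finset.mem_sdiff]
      refine ⟨Finset.mem_univ _, ?_⟩
      intro hm
      rw [Finset.mem_map] at hm
      obtain ⟨q, _, hq⟩ := hm
      simp only [Function.Embedding.coeFn_mk] at hq
      apply hst q
      rw [hq]
      exact gadget_untouched _ hg.2
    refine (Finset.card_le_card hsub).trans ?_
    rw [Finset.card_sdiff_of_subset (Finset.subset_univ _), Finset.card_map, Finset.card_univ,
      Finset.card_univ, Fintype.card_prod (Fin k) (Fin k), Fintype.card_fin]
  · exact Nat.zero_le _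

open Classical in
/-- inner nodes reachable by a good extension of `α` -/
noncomputable def DD (α : Fin n → Option Bool) : Finset B.V :=
  letI := B.fin
  Finset.univ.filter (fun w => ∃ β, Gd E β ∧ Reach B (Sum.inl w) β ∧
    ∀ i b, α i = some b → β i = some b)

lemma mem_DD (α : Fin n → Option Bool) (w : B.V) : w ∈ DD E B α ↔
    ∃ β, Gd E β ∧ Reach B (Sum.inl w) β ∧ ∀ i b, α i = some b → β i = some b := by
  let _ := B.fin
  simp [DD]

lemma main_ind [Nonempty Bk] (hB : B.ReadOnce) (hv : VOk v) (hf : B.Computes (ff E v)) (u : B.V) :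
    ∀ α, Reach B (Sum.inl u) α → Gd E α →
    Phi E α ≤ 2 ^ (Fintype.card (Bk × (Fin k × Fin k)) - k*k) * ((DD E B α).card + 1) := by
  classical
  induction u using B.acyclic.induction with
  | _ u ih =>
    intro α hα gα
    set M := 2 ^ (Fintype.card (Bk × (Fin k × Fin k)) - k*k) with hM
    have hfresh := reach_fresh B hB u α hα
    have hchild : ∀ b, Phi E (Function.update α (B.var u) (some b))
        ≤ M * ((DD E B (Function.update α (B.var u) (some b))).card + 1) := by
      intro b
      by_cases hg : Gd E (Function.update α (B.var u) (some b))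
      · have hr := Reach.step u b α hα
        cases hs : B.succ u b with
        | inl w =>
          rw [hs] at hr
          exact ih w ⟨b, hs⟩ _ hr hg
        | inr c =>
          rw [hs] at hr
          exact absurd (good_not_sink E v B hB hv hf c _ hr hg) (fun h => h)
      · calc _ ≤ M := Phi_bad E _ hg
          _ ≤ _ := Nat.le_mul_of_pos_right _ (Nat.succ_pos _)
    -- disjoint union
    have hsub : insert u (DD E B (Function.update α (B.var u) (some false)) ∪
        DD E B (Function.update α (B.var u) (some true))) ⊆ DD E B α := by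
      intro w hw
      rw [Finset.mem_insert, Finset.mem_union] at hw
      have hext : ∀ (c : Bool) (β : Fin n → Option Bool),
          (∀ i b, Function.update α (B.var u) (some c) i = some b → β i = some b) →
          ∀ i b, α i = some b → β i = some b := by
        intro c β h i b hi
        apply h
        rw [Function.update_of_ne]
        · exact hi
        · intro h'; rw [h', hfresh] at hi; exact absurd hi (by simp)
      rcases hw with h | h | h
      · rw [h, mem_DD]
        exact ⟨α, gα, hα, fun i b h => h⟩
      · rw [mem_DD] at h ⊢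
        obtain ⟨β, h1, h2, h3⟩ := h
        exact ⟨β, h1, h2, hext false β h3⟩
      · rw [mem_DD] at h ⊢
        obtain ⟨β, h1, h2, h3⟩ := h
        exact ⟨β, h1, h2, hext true β h3⟩
    have hdisj : Disjoint (DD E B (Function.update α (B.var u) (some false)))
        (DD E B (Function.update α (B.var u) (some true))) := by
      rw [Finset.disjoint_left]
      intro w h0 h1
      rw [mem_DD] at h0 h1
      obtain ⟨β, g0, r0, e0⟩ := h0
      obtain ⟨β', g1, r1, e1⟩ := h1
      have := good_unique E v B hB hv hf _ β β' r0 r1 g0 g1
      have a0 := e0 (B.var u) false (Function.update_self _ _ _)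
      have a1 := e1 (B.var u) true (Function.update_self _ _ _)
      rw [this, a1] at a0
      exact absurd a0 (by simp)
    have hnot : u ∉ (DD E B (Function.update α (B.var u) (some false)) ∪
        DD E B (Function.update α (B.var u) (some true))) := by
      intro h
      have hh : ∃ c, u ∈ DD E B (Function.update α (B.var u) (some c)) := by
        rw [Finset.mem_union] at h
        rcases h with h | h
        · exact ⟨_, h⟩
        · exact ⟨_, h⟩
      obtain ⟨c, hc⟩ := hh
      rw [mem_DD] at hc
      obtain ⟨β, g0, r0, e0⟩ := hc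
      have := good_unique E v B hB hv hf _ β α r0 hα g0 gα
      have a0 := e0 (B.var u) c (Function.update_self _ _ _)
      rw [this, hfresh] at a0
      exact absurd a0 (by simp)
    have hcard := Finset.card_le_card hsub
    rw [Finset.card_insert_of_notMem hnot, Finset.card_union_of_disjoint hdisj] at hcard
    calc Phi E α ≤ _ := Phi_step E α (B.var u) hfresh
      _ ≤ M * ((DD E B (Function.update α (B.var u) (some false))).card + 1)
          + M * ((DD E B (Function.update α (B.var u) (some true))).card + 1) :=
          Nat.add_le_add (hchild false) (hchild true)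
      _ = M * (((DD E B (Function.update α (B.var u) (some false))).card
          + (DD E B (Function.update α (B.var u) (some true))).card + 1) + 1) := by ring
      _ ≤ _ := by gcongr

theorem lower [Nonempty Bk] (hk : 0 < k) (hB : B.ReadOnce) (hv : VOk v)
    (hf : B.Computes (ff E v)) : 2 ^ (k*k) < B.size := by
  classical
  set α0 : Fin n → Option Bool := fun _ => none with hα0
  have hmajt : maj true true true = true := rfl
  have hmajf : maj false false false = false := rfl
  have g0 : Gd E α0 := by
    intro l
    constructor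
    · unfold bval
      rw [decide_eq_true_iff]
      exact ⟨⟨0, hk⟩, fun j => hmajt⟩
    · unfold bval
      rw [decide_eq_false_iff_not]
      rintro ⟨i, hi⟩
      have := hi ⟨0, hk⟩
      have h2 : maj false false false = true := this
      exact absurd h2 (by decide)
  have c0 : Cons E α0 := by
    refine ⟨?_, ?_, ?_⟩
    · intro g h
      obtain ⟨t, _, _, h1, _⟩ := h
      exact absurd rfl h1
    · intro l i _ j h
      have : st (gw E α0 (l, (i, j))) = none := gadget_untouched _ (fun t => rfl)
      simp only at h
      rw [this] at h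
      exact absurd h (by simp)
    · intro l _ i h
      exact absurd (gadget_untouched _ (fun t => rfl)) (h ⟨0, hk⟩)
  have u0 : unt E α0 = Fintype.card (Bk × (Fin k × Fin k)) := by
    unfold unt
    rw [Finset.filter_true_of_mem (fun g _ t => rfl), Finset.card_univ]
  have hr : Reach B B.source α0 := Reach.start
  let _ := B.fin
  cases hs : B.source with
  | inr c =>
    rw [hs] at hr
    exact absurd (good_not_sink E v B hB hv hf c _ hr g0) (fun h => h)
  | inl u =>
    rw [hs] at hr
    have h := main_ind E v B hB hv hf u α0 hr g0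
    have hPhi : Phi E α0 = 2 ^ Fintype.card (Bk × (Fin k × Fin k)) := by
      unfold Phi; rw [if_pos c0, u0]
    rw [hPhi] at h
    have hle : k*k ≤ Fintype.card (Bk × (Fin k × Fin k)) := by
      rw [Fintype.card_prod, Fintype.card_prod, Fintype.card_fin]
      exact Nat.le_mul_of_pos_left _ Fintype.card_pos
    have hsplit : 2 ^ Fintype.card (Bk × (Fin k × Fin k))
        = 2 ^ (Fintype.card (Bk × (Fin k × Fin k)) - k*k) * 2 ^ (k*k) := by
      rw [← pow_add]; congr 1; omega
    rw [hsplit] at h
    have h2 : 2 ^ (k*k) ≤ (DD E B α0).card + 1 := Nat.le_of_mul_le_mul_left h (by positivity)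
    have h3 : (DD E B α0).card ≤ Fintype.card B.V := Finset.card_le_univ _
    unfold BP.size
    omega

end Fn

/-! ## Small DNFs -/

section DNF
variable {n : ℕ}

/-- `P` has a DNF with at most `s` monomials -/
def HasDNF (P : (Fin n → Bool) → Prop) (s : ℕ) : Prop :=
  ∃ F : Finset (Finset (Fin n × Bool)), F.card ≤ s ∧ ∀ x, P x ↔ ∃ m ∈ F, ∀ l ∈ m, x l.1 = l.2

lemma HasDNF.mono {P : (Fin n → Bool) → Prop} {s t : ℕ} (h : HasDNF P s) (hst : s ≤ t) :
    HasDNF P t := by
  obtain ⟨F, h1, h2⟩ := h
  exact ⟨F, h1.trans hst, h2⟩

lemma HasDNF.congr {P Q : (Fin n → Bool) → Prop} {s : ℕ} (h : HasDNF P s)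
    (hPQ : ∀ x, Q x ↔ P x) : HasDNF Q s := by
  obtain ⟨F, h1, h2⟩ := h
  exact ⟨F, h1, fun x => (hPQ x).trans (h2 x)⟩

lemma hasDNF_lit (i : Fin n) (b : Bool) : HasDNF (fun x => x i = b) 1 := by
  refine ⟨{{(i, b)}}, by simp, ?_⟩
  intro x
  constructor
  · intro h
    refine ⟨_, Finset.mem_singleton_self _, ?_⟩
    intro l hl
    rw [Finset.mem_singleton.mp hl]
    exact h
  · rintro ⟨m, hm, h⟩
    rw [Finset.mem_singleton.mp hm] at h
    exact h (i, b) (Finset.mem_singleton_self _)

lemma hasDNF_true : HasDNF (fun _ : Fin n → Bool => True) 1 :=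
  ⟨{∅}, by simp, by intro x; simp⟩

lemma hasDNF_false : HasDNF (fun _ : Fin n → Bool => False) 1 :=
  ⟨∅, by simp, by intro x; simp⟩

lemma hasDNF_or {A : Type} [Fintype A] (P : A → (Fin n → Bool) → Prop) (s : A → ℕ)
    (h : ∀ a, HasDNF (P a) (s a)) : HasDNF (fun x => ∃ a, P a x) (∑ a, s a) := by
  classical
  choose F h1 h2 using h
  refine ⟨Finset.univ.biUnion F, ?_, ?_⟩
  · exact Finset.card_biUnion_le.trans (Finset.sum_le_sum (fun a _ => h1 a))
  · intro x
    constructor
    · rintro ⟨a, ha⟩
      obtain ⟨m, hm, hs⟩ := (h2 a x).1 ha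
      exact ⟨m, Finset.mem_biUnion.mpr ⟨a, Finset.mem_univ _, hm⟩, hs⟩
    · rintro ⟨m, hm, hs⟩
      obtain ⟨a, _, ha⟩ := Finset.mem_biUnion.mp hm
      exact ⟨a, (h2 a x).2 ⟨m, ha, hs⟩⟩

lemma hasDNF_and {A : Type} [Fintype A] (P : A → (Fin n → Bool) → Prop) (s : A → ℕ)
    (h : ∀ a, HasDNF (P a) (s a)) : HasDNF (fun x => ∀ a, P a x) (∏ a, s a) := by
  classical
  choose F h1 h2 using h
  refine ⟨(Fintype.piFinset F).image (fun c => Finset.univ.biUnion c), ?_, ?_⟩
  · refine Finset.card_image_le.trans ?_
    rw [Fintype.card_piFinset]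
    exact Finset.prod_le_prod (fun _ _ => Nat.zero_le _) (fun a _ => h1 a)
  · intro x
    constructor
    · intro hx
      have : ∀ a, ∃ m ∈ F a, ∀ l ∈ m, x l.1 = l.2 := fun a => (h2 a x).1 (hx a)
      choose c hc1 hc2 using this
      refine ⟨Finset.univ.biUnion c, ?_, ?_⟩
      · exact Finset.mem_image.mpr ⟨c, Fintype.mem_piFinset.mpr hc1, rfl⟩
      · intro l hl
        obtain ⟨a, _, ha⟩ := Finset.mem_biUnion.mp hl
        exact hc2 a l ha
    · rintro ⟨m, hm, hs⟩ a
      obtain ⟨c, hc, rfl⟩ := Finset.mem_image.mp hm
      refine (h2 a x).2 ⟨c a, Fintype.mem_piFinset.mp hc a, ?_⟩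
      intro l hl
      exact hs l (Finset.mem_biUnion.mpr ⟨a, Finset.mem_univ _, hl⟩)

lemma hasDNF_and2 {P Q : (Fin n → Bool) → Prop} {s t : ℕ} (hP : HasDNF P s) (hQ : HasDNF Q t) :
    HasDNF (fun x => P x ∧ Q x) (s * t) := by
  have h := hasDNF_and (fun (b : Bool) x => if b = true then P x else Q x)
    (fun b => if b = true then s else t) (by
      intro b
      cases b
      · simpa using hQ
      · simpa using hP)
  refine (h.congr ?_).mono ?_
  · intro x
    simp only [Bool.forall_bool]
    simp only [Bool.false_eq_true, if_false, if_true]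
    tauto
  · simp

lemma maj_eq_iff : ∀ (a b c p : Bool), maj a b c = p ↔
    ∃ t : Fin 3, ∀ t' : {t' : Fin 3 // t' ≠ t}, ![a, b, c] t'.1 = p := by
  decide

end DNF

section FnDNF
variable {n k : ℕ} {Bk : Type} [Fintype Bk] [DecidableEq Bk]
  (E : Fin n ≃ (Bk × (Fin k × Fin k)) × Fin 3) (v : (Bk → Bool) → Fin n ⊕ Bool)

lemma hasDNF_maj (i0 i1 i2 : Fin n) (p : Bool) :
    HasDNF (fun x => maj (x i0) (x i1) (x i2) = p) 3 := by
  have h : HasDNF (fun x : Fin n → Bool => ∃ t : Fin 3, ∀ t' : {t' : Fin 3 // t' ≠ t},
      x (![i0, i1, i2] t'.1) = p) (∑ _t : Fin 3, ∏ _t' : {t' : Fin 3 // t' ≠ _t}, 1) :=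
    hasDNF_or _ _ (fun t => hasDNF_and _ _ (fun t' => hasDNF_lit _ _))
  refine (h.congr ?_).mono (by simp)
  intro x
  rw [maj_eq_iff]
  apply exists_congr; intro t
  apply forall_congr'; intro t'
  have : ∀ r : Fin 3, ![x i0, x i1, x i2] r = x (![i0, i1, i2] r) := by
    intro r
    fin_cases r <;> rfl
  rw [this]

lemma hasDNF_bval (hk : 0 < k) (l : Bk) (p : Bool) :
    HasDNF (fun x => bval E x l = p) ((3*k)^k) := by
  cases p with
  | true =>
    have h : HasDNF (fun x => ∃ i : Fin k, ∀ j : Fin k, maj (x (E.symm ((l, (i, j)), 0)))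
      (x (E.symm ((l, (i, j)), 1))) (x (E.symm ((l, (i, j)), 2))) = true)
      (∑ _i : Fin k, ∏ _j : Fin k, 3) :=
      hasDNF_or _ _ (fun i => hasDNF_and _ _ (fun j => hasDNF_maj _ _ _ _))
    refine (h.congr ?_).mono ?_
    · intro x; unfold bval; rw [decide_eq_true_iff]
    · simp only [Finset.prod_const, Finset.card_univ, Fintype.card_fin, Finset.sum_const,
        smul_eq_mul]
      rw [mul_pow, mul_comm]
      gcongr
      exact Nat.le_self_pow (by omega) k
  | false =>
    have h : HasDNF (fun x => ∀ i : Fin k, ∃ j : Fin k, maj (x (E.symm ((l, (i, j)), 0)))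
      (x (E.symm ((l, (i, j)), 1))) (x (E.symm ((l, (i, j)), 2))) = false)
      (∏ _i : Fin k, ∑ _j : Fin k, 3) :=
      hasDNF_and _ _ (fun i => hasDNF_or _ _ (fun j => hasDNF_maj _ _ _ _))
    refine (h.congr ?_).mono ?_
    · intro x; unfold bval; rw [decide_eq_false_iff_not]
      push Not
      simp
    · simp only [Finset.prod_const, Finset.card_univ, Fintype.card_fin, Finset.sum_const,
        smul_eq_mul]
      rw [mul_comm]

lemma hasDNF_ff (hk : 0 < k) (c : Bool) :
    HasDNF (fun x => ff E v x = c)
      (2 ^ Fintype.card Bk * ((3*k)^k) ^ Fintype.card Bk) := by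
  classical
  have h : HasDNF (fun x => ∃ p : Bk → Bool, (∀ l, bval E x l = p l) ∧ lit x (v p) = c)
      (∑ _p : Bk → Bool, (∏ _l : Bk, (3*k)^k) * 1) := by
    apply hasDNF_or
    intro p
    apply hasDNF_and2
    · exact hasDNF_and _ _ (fun l => hasDNF_bval E hk l (p l))
    · cases hv : v p with
      | inl s => exact hasDNF_lit s c
      | inr c' =>
        by_cases hc : c' = c
        · exact hasDNF_true.congr (fun x => by simp [lit, hc])
        · exact hasDNF_false.congr (fun x => by simp [lit, hc])
  refine (h.congr ?_).mono ?_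
  · intro x
    constructor
    · intro hx
      exact ⟨bval E x, fun l => rfl, hx⟩
    · rintro ⟨p, hp, hx⟩
      have : bval E x = p := funext hp
      unfold ff
      rw [this]
      exact hx
  · simp

lemma weight_le (hk : 0 < k) :
    weight (ff E v) ≤ 2 * (2 ^ Fintype.card Bk * ((3*k)^k) ^ Fintype.card Bk) := by
  have h1 : dnf (ff E v) ≤ 2 ^ Fintype.card Bk * ((3*k)^k) ^ Fintype.card Bk := by
    obtain ⟨F, hF1, hF2⟩ := hasDNF_ff E v hk true
    have hmem : F.card ∈ {s | ∃ F : Finset (Finset (Fin n × Bool)),
      IsDNF F (ff E v) ∧ F.card = s} := ⟨F, hF2, rfl⟩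
    exact (Nat.sInf_le hmem).trans hF1
  have h2 : dnf (fun x => !(ff E v x)) ≤ 2 ^ Fintype.card Bk * ((3*k)^k) ^ Fintype.card Bk := by
    obtain ⟨F, hF1, hF2⟩ := hasDNF_ff E v hk false
    have hmem : F.card ∈ {s | ∃ F : Finset (Finset (Fin n × Bool)),
      IsDNF F (fun x => !(ff E v x)) ∧ F.card = s} := by
      refine ⟨F, ?_, rfl⟩
      intro x
      rw [← hF2 x]
      simp
    exact (Nat.sInf_le hmem).trans hF1
  unfold weight
  omega

end FnDNF

/-! ## The addressing map and the final choice of parameters -/

open Classical in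
/-- addressing map -/
noncomputable def vv {n L : ℕ} (enc : Fin n → (Fin L → Bool)) (p : Fin L ⊕ Fin 2 → Bool) :
    Fin n ⊕ Bool :=
  if p (Sum.inr 0) = true ∧ p (Sum.inr 1) = true then
    (if h : ∃ s, enc s = fun i => p (Sum.inl i) then Sum.inl h.choose else Sum.inr false)
  else if p = (fun _ => false) then Sum.inr false else Sum.inr true

lemma vv_ok {n L : ℕ} (enc : Fin n → (Fin L → Bool)) (henc : Function.Injective enc) :
    VOk (vv enc) := by
  constructor
  · intro s
    refine ⟨Sum.elim (enc s) (fun _ => true), ?_⟩
    unfold vv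
    rw [if_pos (by simp)]
    have hex : ∃ s' : Fin n, enc s' =
        fun i : Fin L => (Sum.elim (enc s) (fun _ => true) : Fin L ⊕ Fin 2 → Bool) (Sum.inl i) :=
      ⟨s, rfl⟩
    rw [dif_pos hex]
    congr 1
    apply henc
    rw [hex.choose_spec]
    rfl
  · unfold vv
    rw [if_neg (by simp), if_pos rfl]
  · intro l
    unfold vv
    rw [if_neg, if_neg]
    · intro h
      have := congrFun h l
      rw [Function.update_self] at this
      exact absurd this (by simp)
    · rintro ⟨h0, h1⟩
      by_cases hl : l = Sum.inr 0
      · rw [hl, Function.update_of_ne (by simp)] at h1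
        exact absurd h1 (by simp)
      · rw [Function.update_of_ne (fun h => hl h.symm)] at h0
        exact absurd h0 (by simp)

/-- the family of functions -/
theorem family (t : ℕ) : ∃ (n : ℕ) (f : (Fin n → Bool) → Bool),
    weight f ≤ 2 ^ (4*t + 8 + (t+2) * 2^t * (4*t+7)) ∧ 2 ^ (4^t) < BP1 f := by
  classical
  set k := 2^t with hk
  have hkpos : 0 < k := by positivity
  set n := Fintype.card (((Fin (4*t+5) ⊕ Fin 2) × (Fin k × Fin k)) × Fin 3) with hn
  have hncard : n = (4*t+7) * (k*k) * 3 := by
    rw [hn]
    simp only [Fintype.card_prod, Fintype.card_sum, Fintype.card_fin]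
  have hkk : k * k = 4^t := by
    rw [hk, ← pow_add, ← two_mul, pow_mul]; norm_num
  have hnle : n ≤ 2 ^ (4*t+5) := by
    rw [hncard, hkk]
    have h1 : 12*t+21 ≤ 32 * 4^t := by
      have : t < 4^t := Nat.lt_pow_self (by norm_num)
      omega
    have h2 : 2^(4*t+5) = 32 * 4^t * 4^t := by
      rw [pow_add, pow_mul, mul_assoc, ← mul_pow]; norm_num; ring
    rw [h2]
    calc (4*t+7) * 4^t * 3 = (12*t+21) * 4^t := by ring
      _ ≤ _ := Nat.mul_le_mul_right _ h1
  obtain ⟨enc⟩ : Nonempty (Fin n ↪ (Fin (4*t+5) → Bool)) := by
    apply Function.Embedding.nonempty_of_card_le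
    simpa using hnle
  let E : Fin n ≃ ((Fin (4*t+5) ⊕ Fin 2) × (Fin k × Fin k)) × Fin 3 := (Fintype.equivFin _).symm
  refine ⟨n, ff E (vv enc), ?_, ?_⟩
  · refine (weight_le E (vv enc) hkpos).trans ?_
    have hc : Fintype.card (Fin (4*t+5) ⊕ Fin 2) = 4*t+7 := by simp
    rw [hc]
    have h3 : 3 * k ≤ 2^(t+2) := by
      rw [hk, pow_add]; omega
    calc 2 * (2 ^ (4*t+7) * ((3*k)^k) ^ (4*t+7))
        ≤ 2 * (2 ^ (4*t+7) * ((2^(t+2))^k) ^ (4*t+7)) := by gcongr
      _ = 2 ^ (4*t + 8 + (t+2) * 2^t * (4*t+7)) := by
        rw [← pow_mul, ← pow_mul, ← pow_add, ← pow_succ', hk]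
        congr 1
        ring
  · have hmem := Nat.sInf_mem (BP1_nonempty (ff E (vv enc)))
    obtain ⟨B, h1, h2, h3⟩ := hmem
    have := lower E (vv enc) B hkpos h1 (vv_ok enc enc.injective) h2
    rw [h3, hkk] at this
    exact this

lemma poly_bound (p : Polynomial ℝ) : ∃ C : ℝ, 0 ≤ C ∧ ∀ x : ℝ, 0 ≤ x →
    p.eval x ≤ C * (x+1)^p.natDegree := by
  refine ⟨∑ i ∈ Finset.range (p.natDegree + 1), |p.coeff i|, Finset.sum_nonneg
    (fun _ _ => abs_nonneg _), ?_⟩
  intro x hx
  rw [Polynomial.eval_eq_sum_range, Finset.sum_mul]
  apply Finset.sum_le_sum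
  intro i hi
  have hi' : i ≤ p.natDegree := Nat.lt_succ_iff.mp (Finset.mem_range.mp hi)
  calc p.coeff i * x^i ≤ |p.coeff i| * (x+1)^i := by
        apply mul_le_mul (le_abs_self _) _ (by positivity) (abs_nonneg _)
        gcongr
        linarith
    _ ≤ |p.coeff i| * (x+1)^p.natDegree := by
        gcongr
        linarith

lemma eventually_small (K : ℝ) (hK : 0 ≤ K) : ∃ t : ℕ,
    K * ((4*t + 8 + (t+2) * 2^t * (4*t+7) : ℕ) + 1 : ℝ) ≤ 4^t := by
  have ht := tendsto_pow_const_mul_const_pow_of_abs_lt_one 2 (r := (1/2:ℝ)) (by
    rw [abs_of_pos (by norm_num)]; norm_num)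
  have ht2 := ht.const_mul (K * 46)
  rw [mul_zero] at ht2
  have hev := ht2.eventually (gt_mem_nhds (show (0:ℝ) < 1 by norm_num))
  rw [Filter.eventually_atTop] at hev
  obtain ⟨t0, h0⟩ := hev
  refine ⟨max t0 1, ?_⟩
  set t := max t0 1 with htdef
  have h1 := h0 t (le_max_left _ _)
  have ht1 : (1:ℝ) ≤ t := by
    have : 1 ≤ t := le_max_right _ _
    exact_mod_cast this
  have h2t : (1:ℝ) ≤ 2^t := one_le_pow₀ (by norm_num)
  have h3 : ((4*t + 8 + (t+2) * 2^t * (4*t+7) : ℕ) + 1 : ℝ) ≤ 46 * t^2 * 2^t := by
    push_cast
    have e1 : (4*(t:ℝ) + 8 + 1) ≤ 13 * t^2 * 2^t := by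
      have : (4*(t:ℝ) + 8 + 1) ≤ 13 * t^2 := by nlinarith
      calc (4*(t:ℝ) + 8 + 1) ≤ 13 * t^2 := this
        _ = 13 * t^2 * 1 := by ring
        _ ≤ _ := by gcongr
    have e2 : ((t:ℝ)+2) * 2^t * (4*t+7) ≤ 33 * t^2 * 2^t := by
      have : ((t:ℝ)+2) * (4*t+7) ≤ 33 * t^2 := by nlinarith
      calc ((t:ℝ)+2) * 2^t * (4*t+7) = ((t:ℝ)+2) * (4*t+7) * 2^t := by ring
        _ ≤ _ := by gcongr
    nlinarith
  calc K * ((4*t + 8 + (t+2) * 2^t * (4*t+7) : ℕ) + 1 : ℝ) ≤ K * (46 * t^2 * 2^t) := by gcongr
    _ = (K * 46 * (t^2 * (1/2)^t)) * 4^t := by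
        have : (4:ℝ)^t = 2^t * 2^t := by rw [← mul_pow]; norm_num
        rw [this]
        have h5 : (1/2:ℝ)^t * 2^t = 1 := by rw [← mul_pow]; norm_num
        calc K * (46 * (t:ℝ)^2 * 2^t) = K * (46 * (t:ℝ)^2 * 2^t) * 1 := by ring
          _ = K * (46 * (t:ℝ)^2 * 2^t) * ((1/2:ℝ)^t * 2^t) := by rw [h5]
          _ = _ := by ring
    _ ≤ 1 * 4^t := by gcongr
    _ = 4^t := one_mul _

/-- **Main result.** For every polynomial `p` there is a Boolean function `f` whose read-once
branching program size exceeds `p (‖f‖)`, where `‖f‖ = dnf f + dnf (¬ f)`. -/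
theorem result : ∀ p : Polynomial ℝ, ∃ (n : ℕ) (f : (Fin n → Bool) → Bool),
    p.eval (weight f : ℝ) < (BP1 f : ℝ) := by
  intro p
  obtain ⟨C, hC, hp⟩ := poly_bound p
  obtain ⟨c, hc⟩ := pow_unbounded_of_one_lt C (by norm_num : (1:ℝ) < 2)
  obtain ⟨t, ht⟩ := eventually_small (c + p.natDegree) (by positivity)
  obtain ⟨n, f, h1, h2⟩ := family t
  refine ⟨n, f, ?_⟩
  set e := 4*t + 8 + (t+2) * 2^t * (4*t+7) with he
  have h3 : ((weight f : ℝ) + 1) ≤ 2^(e+1) := by
    have : (weight f : ℝ) ≤ 2^e := by exact_mod_cast h1
    have h1' : (1:ℝ) ≤ 2^e := one_le_pow₀ (by norm_num)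
    rw [pow_succ]; linarith
  calc p.eval (weight f : ℝ) ≤ C * ((weight f : ℝ)+1)^p.natDegree := hp _ (by positivity)
    _ ≤ 2^c * (2^(e+1))^p.natDegree := by
        gcongr
    _ = 2^(c + (e+1) * p.natDegree) := by
        rw [← pow_mul, ← pow_add]
    _ ≤ 2^(4^t) := by
        apply pow_le_pow_right₀ (by norm_num)
        have h4 : ((c + (e+1) * p.natDegree : ℕ) : ℝ) ≤ ((4^t : ℕ) : ℝ) := by
          push_cast
          have h5 : (0:ℝ) ≤ e := by positivity
          have h6 : (c:ℝ) ≤ c * (e+1) := by nlinarith [Nat.cast_nonneg (α := ℝ) c]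
          calc (c:ℝ) + (e+1) * p.natDegree ≤ c * (e+1) + (e+1) * p.natDegree := by linarith
            _ = (c + p.natDegree) * (e + 1) := by ring
            _ ≤ _ := ht
        exact_mod_cast h4
    _ < (BP1 f : ℝ) := by exact_mod_cast h2

end Pool.Agent.Results.MP_e5af61_lc.SuperPoly
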